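import Pool.Agent.Y195.LM.Stm
import Pool.Agent.TH113.J1305

/-!
Transport of a periodic field by the logarithm (`Pool.Agent.Y195.LM.S_TRP`).
-/

set_option autoImplicit false

open MeasureTheory Set Filter Topology Metric Complex Pool.Agent.TH605.MS Pool.Agent.Y195.LM
open scoped ENNReal ComplexConjugate Real

namespace Pool.Agent.Y658.LM

theorem per_int (H : ℂ × ℝ → ℂ) (hper : ∀ (w : ℂ) (t : ℝ), H (w + 2 * π * I, t) = H (w, t))
    (n : ℤ) (w : ℂ) (t : ℝ) : H (w + n * (2 * π * I), t) = H (w, t) := by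
  induction n using Int.induction_on generalizing w with
  | zero => simp
  | succ n ih =>
    have h : w + ((n : ℤ) + 1 : ℤ) * (2 * π * I) = (w + (n : ℤ) * (2 * π * I)) + 2 * π * I := by
      push_cast
      ring
    rw [h, hper, ih]
  | pred n ih =>
    have h := hper (w + (-(n : ℤ) - 1 : ℤ) * (2 * π * I)) t
    rw [← h]
    have h2 : w + (-(n : ℤ) - 1 : ℤ) * (2 * π * I) + 2 * π * I = w + (-(n : ℤ) : ℤ) * (2 * π * I) := by
      push_cast
      ring
    rw [h2, ih]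

/-- a branch of the logarithm -/
noncomputable def br (c : ℝ) (X : ℂ) : ℂ := log (X * exp (-(c * I))) + c * I

theorem exp_br (c : ℝ) {X : ℂ} (hX : X ≠ 0) : exp (br c X) = X := by
  unfold br
  rw [exp_add, exp_log (mul_ne_zero hX (exp_ne_zero _)), mul_assoc, ← exp_add, neg_add_cancel,
    exp_zero, mul_one]

theorem br_exp (c : ℝ) {w : ℂ} (hw : |w.im - c| < π) : br c (exp w) = w := by
  unfold br
  rw [← exp_add]
  have h1 : (w + -(c * I)).im = w.im - c := by simp [sub_eq_add_neg]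
  rw [log_exp]
  · ring
  · rw [h1]
    exact (abs_lt.mp hw).1
  · rw [h1]
    exact (abs_lt.mp hw).2.le

theorem log_strip {σ : ℝ} (h1 : σ ≤ 1 / 2) {X : ℂ} (hX : X ∈ An σ) :
    X ≠ 0 ∧ Complex.log X ∈ Strip σ := by
  have h : |‖X‖ ^ 2 - 1| < σ := hX
  obtain ⟨h2, h3⟩ := abs_lt.mp h
  have hσ : 0 < σ := lt_of_le_of_lt (abs_nonneg _) h
  have hp : 0 < ‖X‖ ^ 2 := by linarith
  have hX0 : X ≠ 0 := by
    rintro rfl
    simp at hp
  have hn : 0 < ‖X‖ := norm_pos_iff.mpr hX0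
  refine ⟨hX0, ?_⟩
  change |(Complex.log X).re| < σ
  rw [Complex.log_re, abs_lt]
  have e : Real.log (‖X‖ ^ 2) = 2 * Real.log ‖X‖ := by
    rw [Real.log_pow]
    norm_num
  constructor
  · have h4 : Real.log ((‖X‖ ^ 2)⁻¹) ≤ (‖X‖ ^ 2)⁻¹ - 1 :=
      Real.log_le_sub_one_of_pos (inv_pos.mpr hp)
    rw [Real.log_inv, e] at h4
    have h5 : (‖X‖ ^ 2)⁻¹ < 1 + 2 * σ := by
      rw [inv_lt_comm₀ hp (by linarith)]
      have h6 : (1 + 2 * σ)⁻¹ ≤ 1 - σ := by
        rw [inv_le_comm₀ (by linarith) (by linarith), ← one_div, div_le_iff₀ (by linarith)]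
        nlinarith
      linarith
    linarith
  · have h4 : Real.log (‖X‖ ^ 2) ≤ ‖X‖ ^ 2 - 1 := Real.log_le_sub_one_of_pos hp
    rw [e] at h4
    linarith

theorem t : S_TRP := by
  intro σ H h0 h1 hH hper
  have key : ∀ X ∈ An σ, ∀ t : ℝ,
      ContDiffAt ℝ 1 (fun p : ℂ × ℝ => (conj p.1)⁻¹ * H (Complex.log p.1, p.2)) (X, t) ∧
      divx (fun p : ℂ × ℝ => (conj p.1)⁻¹ * H (Complex.log p.1, p.2)) (X, t)
        = (‖X‖ ^ 2)⁻¹ * divx H (Complex.log X, t) ∧
      dt (fun p : ℂ × ℝ => (conj p.1)⁻¹ * H (Complex.log p.1, p.2)) (X, t)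
        = (conj X)⁻¹ * dt H (Complex.log X, t) := by
    intro X hX t
    obtain ⟨hX0, hXs⟩ := log_strip h1 hX
    set c : ℝ := (Complex.log X).im with hc
    have hWo : IsOpen {w : ℂ | |w.im - c| < π} :=
      isOpen_lt (by fun_prop) continuous_const
    have hSo : IsOpen (Strip σ) := isOpen_lt (by fun_prop) continuous_const
    have hAo : IsOpen ({w : ℂ | |w.im - c| < π} ∩ Strip σ) := hWo.inter hSo
    have hXA : Complex.log X ∈ {w : ℂ | |w.im - c| < π} ∩ Strip σ := by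
      refine ⟨?_, hXs⟩
      change |(Complex.log X).im - c| < π
      rw [← hc, sub_self, abs_zero]
      exact Real.pi_pos
    have hexp : exp (Complex.log X) = X := exp_log hX0
    obtain ⟨tr1, tr2⟩ := Pool.Agent.TH113.MS.transport hWo hAo inter_subset_left
      (f := exp) (f' := exp) (k := br c) (fun Y _ => hasDerivAt_exp Y)
      (fun Y _ => exp_ne_zero Y) (fun Y hY => br_exp c hY)
      (hH.mono (prod_mono_left inter_subset_right))
    obtain ⟨tr2, tr3⟩ := tr2 _ hXA t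
    have hopen : IsOpen (exp '' ({w : ℂ | |w.im - c| < π} ∩ Strip σ)) :=
      Pool.Agent.TH113.MS.tr_open hWo hAo inter_subset_left
        (fun Y _ => hasDerivAt_exp Y) (fun Y _ => exp_ne_zero Y)
    have hmem : (X, t) ∈ (exp '' ({w : ℂ | |w.im - c| < π} ∩ Strip σ)) ×ˢ (univ : Set ℝ) :=
      ⟨⟨_, hXA, hexp⟩, mem_univ _⟩
    have hev : (fun p : ℂ × ℝ => (conj p.1)⁻¹ * H (Complex.log p.1, p.2)) =ᶠ[𝓝 (X, t)]
        (fun p : ℂ × ℝ => (conj (exp (br c p.1)))⁻¹ * H (br c p.1, p.2)) := by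
      have h2 : ∀ᶠ p : ℂ × ℝ in 𝓝 (X, t), p.1 ≠ 0 :=
        (continuous_fst.continuousAt (x := (X, t))).eventually_ne hX0
      filter_upwards [h2] with p hp
      rw [exp_br c hp]
      congr 1
      have h3 : exp (Complex.log p.1) = exp (br c p.1) := by rw [exp_log hp, exp_br c hp]
      obtain ⟨n, hn⟩ := Complex.exp_eq_exp_iff_exists_int.mp h3
      rw [hn]
      exact per_int H hper n _ _
    rw [hexp] at tr2 tr3
    refine ⟨?_, ?_, ?_⟩
    · exact ((tr1.contDiffAt ((hopen.prod isOpen_univ).mem_nhds hmem))).congr_of_eventuallyEq hev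
    · unfold divx at tr2 ⊢
      rw [hev.fderiv_eq]
      exact tr2
    · unfold dt at tr3 ⊢
      rw [hev.fderiv_eq]
      exact tr3
  constructor
  · rintro ⟨X, t⟩ ⟨hX, -⟩
    exact (key X hX t).1.contDiffWithinAt
  · intro X hX t
    exact ⟨(log_strip h1 hX).2, (key X hX t).2⟩

end Pool.Agent.Y658.LM
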